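import Pool.Agent.H5.OR.Targets3

/-!
# Rows KH, KZ, TG of board ors_modules (MP_e1fd52_al)
-/

set_option autoImplicit false

open scoped Classical

namespace Pool.Agent.H97.ORS

open ORg

theorem kg_rel (k : ℕ) (p q : ℤ) :
    (kg true : KP k p q) ^ k * kg false ^ p * (kg true ^ k)⁻¹ = kg false ^ q := by
  have h : PresentedGroup.mk ({relK k p q} : Set (FreeGroup (Bool ⊕ Empty))) (relK k p q) = 1 :=
    (QuotientGroup.eq_one_iff _).2 (Subgroup.subset_normalClosure rfl)
  have h2 : (kg true : KP k p q) ^ k * kg false ^ p * (kg true ^ k)⁻¹ * (kg false ^ q)⁻¹ = 1 := by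
    rw [← h]
    simp only [relK, map_mul, map_inv, map_pow, map_zpow]
    rfl
  exact mul_inv_eq_one.1 h2

theorem pf_KH : T_KH := by
  intro k p q
  refine ⟨kg_rel k p q, ?_, ?_⟩
  · intro H _ g h hgh
    let f0 : Bool ⊕ Empty → H := fun z => Sum.elim (fun b => cond b g h) (fun e => e.elim) z
    refine ⟨PresentedGroup.toGroup (f := f0) ?_, ?_, ?_⟩
    · intro r hr
      rw [Set.mem_singleton_iff] at hr
      subst hr
      simp only [relK, map_mul, map_inv, map_pow, map_zpow, FreeGroup.lift_apply_of]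
      simp only [f0, Sum.elim_inl, cond_true, cond_false]
      rw [hgh, mul_inv_cancel]
    · unfold kg
      rw [PresentedGroup.toGroup.of]
      rfl
    · unfold kg
      rw [PresentedGroup.toGroup.of]
      rfl
  · intro H _ f f' h1 h2
    refine PresentedGroup.ext ?_
    rintro (b | e)
    · cases b
      · exact h2
      · exact h1
    · exact e.elim

/-- the arguments in the commutative quotients -/
private theorem kz_aux {A A' : Type} [CommGroup A] [CommGroup A'] (X Y : A) (X' Y' : A')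
    (d d' : ℤ) (hd : d ≠ 0) (g1 : ∀ a : A, ∃ i j : ℤ, a = X ^ i * Y ^ j)
    (r1 : ∀ i j : ℤ, X ^ i * Y ^ j = 1 ↔ i = 0 ∧ d ∣ j)
    (g2 : ∀ a : A', ∃ i j : ℤ, a = X' ^ i * Y' ^ j)
    (r2 : ∀ i j : ℤ, X' ^ i * Y' ^ j = 1 ↔ i = 0 ∧ d' ∣ j) (B : A ≃* A') :
    d' ≠ 0 ∧ d ∣ d' ∧ ∃ ε : ℤ, (ε = 1 ∨ ε = -1) ∧ (∃ j : ℤ, B X = X' ^ ε * Y' ^ j) ∧
      ∃ i : ℤ, B Y = Y' ^ i := by
  have hYd : Y ^ d = 1 := by
    have := (r1 0 d).2 ⟨rfl, dvd_refl d⟩
    simpa using this
  obtain ⟨s0, i0, hBY⟩ := g2 (B Y)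
  obtain ⟨ε, j0, hBX⟩ := g2 (B X)
  obtain ⟨s, t, hX'⟩ := g1 (B.symm X')
  obtain ⟨s2, t2, hY'⟩ := g1 (B.symm Y')
  have hX'' : X' = (B X) ^ s * (B Y) ^ t := by
    rw [← map_zpow, ← map_zpow, ← map_mul, ← hX', B.apply_symm_apply]
  have hY'' : Y' = (B X) ^ s2 * (B Y) ^ t2 := by
    rw [← map_zpow, ← map_zpow, ← map_mul, ← hY', B.apply_symm_apply]
  have hBYd : X' ^ (s0 * d) * Y' ^ (i0 * d) = 1 := by
    have h1 : (B Y) ^ d = 1 := by rw [← map_zpow, hYd, map_one]
    rw [hBY, mul_zpow, ← zpow_mul, ← zpow_mul] at h1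
    exact h1
  have hs0 : s0 = 0 := by
    have := ((r2 _ _).1 hBYd).1
    rcases mul_eq_zero.1 this with h | h
    · exact h
    · exact absurd h hd
  subst hs0
  rw [zpow_zero, one_mul] at hBY
  have hε : X' ^ (ε * s - 1) * Y' ^ (j0 * s + i0 * t) = 1 := by
    have h1 := hX''
    rw [hBX, hBY, mul_zpow, ← zpow_mul, ← zpow_mul, ← zpow_mul, mul_assoc, ← zpow_add] at h1
    rw [zpow_sub, zpow_one, mul_right_comm, ← h1, mul_inv_cancel]
  have hεs := ((r2 _ _).1 hε).1
  have hd' : d' ≠ 0 := by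
    rintro rfl
    have hi0 : i0 = 0 := by
      have := ((r2 _ _).1 hBYd).2
      rw [zero_dvd_iff] at this
      rcases mul_eq_zero.1 this with h | h
      · exact h
      · exact absurd h hd
    subst hi0
    have h2 := ((r2 _ _).1 hε).2
    rw [zero_dvd_iff] at h2
    have hs : s ≠ 0 := by
      rintro rfl
      simp at hεs
    have hj0 : j0 = 0 := by
      rcases mul_eq_zero.1 (show j0 * s = 0 by linarith) with h | h
      · exact h
      · exact absurd h hs
    subst hj0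
    have h3 : X' ^ (ε * s2) * Y' ^ (-1 : ℤ) = 1 := by
      have h1 := hY''
      rw [hBX, hBY, zpow_zero, mul_one, ← zpow_mul] at h1
      simp only [zpow_zero, one_zpow, mul_one] at h1
      rw [zpow_neg, zpow_one, ← h1, mul_inv_cancel]
    have h4 := ((r2 _ _).1 h3).2
    rw [zero_dvd_iff] at h4
    omega
  refine ⟨hd', ?_, ε, ?_, ⟨j0, hBX⟩, i0, hBY⟩
  · have h1 : (B Y) ^ d' = 1 := by
      rw [hBY, ← zpow_mul]
      have := (r2 0 (i0 * d')).2 ⟨rfl, Dvd.intro_left _ rfl⟩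
      simpa using this
    rw [← map_zpow] at h1
    have h2 : Y ^ d' = 1 := B.injective (by rw [h1, map_one])
    have h3 := (r1 0 d').1 (by rw [zpow_zero, one_mul, h2])
    exact h3.2
  · have h1 : ε * s = 1 := by linarith
    exact Int.isUnit_iff.1 (IsUnit.of_mul_eq_one s h1)

theorem pf_KZ (KH : T_KH) (KT : T_KT) : T_KZ := by
  intro k p q k' p' q' β hpq
  obtain ⟨gen, rel⟩ := KT k p q
  obtain ⟨gen', rel'⟩ := KT k' p' q'
  have key : ∀ (G : Type) [Group G] (x y : G), Abelianization.of x = Abelianization.of y ↔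
      x * y⁻¹ ∈ commutator G := by
    intro G _ x y
    rw [← Abelianization.ker_of, MonoidHom.mem_ker, map_mul, map_inv, mul_inv_eq_one]
  have h := kz_aux (Abelianization.of (kg true : KP k p q)) (Abelianization.of (kg false))
    (Abelianization.of (kg true : KP k' p' q')) (Abelianization.of (kg false)) (p - q) (p' - q')
    (sub_ne_zero.2 hpq) ?_ ?_ ?_ ?_ (β.abelianizationCongr)
  · obtain ⟨h1, h2, ε, hε, ⟨j, hj⟩, i, hi⟩ := h
    refine ⟨sub_ne_zero.1 h1, h2, ε, hε, ⟨j, ?_⟩, i, ?_⟩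
    · rw [← key]
      rw [abelianizationCongr_of] at hj
      rw [hj, map_mul, map_zpow, map_zpow]
    · rw [← key]
      rw [abelianizationCongr_of] at hi
      rw [hi, map_zpow]
  · intro a
    obtain ⟨g, rfl⟩ : ∃ g, Abelianization.of g = a := QuotientGroup.mk_surjective a
    obtain ⟨i, j, hij⟩ := gen g
    refine ⟨i, j, ?_⟩
    rw [← map_zpow, ← map_zpow, ← map_mul, key]
    exact hij
  · intro i j
    rw [← rel i j, ← map_zpow, ← map_zpow, ← map_mul, ← Abelianization.ker_of, MonoidHom.mem_ker]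
  · intro a
    obtain ⟨g, rfl⟩ : ∃ g, Abelianization.of g = a := QuotientGroup.mk_surjective a
    obtain ⟨i, j, hij⟩ := gen' g
    refine ⟨i, j, ?_⟩
    rw [← map_zpow, ← map_zpow, ← map_mul, key]
    exact hij
  · intro i j
    rw [← rel' i j, ← map_zpow, ← map_zpow, ← map_mul, ← Abelianization.ker_of, MonoidHom.mem_ker]

end Pool.Agent.H97.ORS
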