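import Pool.Agent.H5.OR.Targets3

/-!
# Row TG of board ors_modules (MP_e1fd52_al)
-/

set_option autoImplicit false

open scoped Classical

namespace Pool.Agent.H97.ORS

open ORg

/-- the letters of the factor `i` -/
private abbrev ιi {I : Type} {W : I → Type} (i : I) : FreeGroup (W i) →* FreeGroup ((Σ i, W i) ⊕ Empty) :=
  FreeGroup.map (fun z : W i => (Sum.inl ⟨i, z⟩ : (Σ i, W i) ⊕ Empty))

private def fwd {I : Type} {X Z X' Z' : I → Type}
    (a : ∀ i, FreeGroup (X i) →* FreeGroup (X' i)) (e : (Σ i, Z i) → (Σ i, Z' i)) :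
    FreeGroup ((Σ i, X i ⊕ Z i) ⊕ Empty) →* FreeGroup ((Σ i, X' i ⊕ Z' i) ⊕ Empty) :=
  FreeGroup.lift fun z => match z with
  | Sum.inl ⟨i, Sum.inl x⟩ => ιi (W := fun i => X' i ⊕ Z' i) i (fl (a i (FreeGroup.of x)))
  | Sum.inl ⟨i, Sum.inr z⟩ => FreeGroup.of (Sum.inl ⟨(e ⟨i, z⟩).1, Sum.inr (e ⟨i, z⟩).2⟩)
  | Sum.inr e => e.elim

private theorem fwd_x {I : Type} {X Z X' Z' : I → Type}
    (a : ∀ i, FreeGroup (X i) →* FreeGroup (X' i)) (e : (Σ i, Z i) → (Σ i, Z' i)) (i : I)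
    (x : FreeGroup (X i)) : fwd a e (ιi (W := fun i => X i ⊕ Z i) i (fl x)) =
      ιi (W := fun i => X' i ⊕ Z' i) i (fl (a i x)) := by
  have h : (fwd a e).comp ((ιi (W := fun i => X i ⊕ Z i) i).comp fl) =
      (ιi (W := fun i => X' i ⊕ Z' i) i).comp (fl.comp (a i)) := by
    refine FreeGroup.ext_hom _ _ fun y => ?_
    simp only [MonoidHom.comp_apply, FreeGroup.map.of, fwd, FreeGroup.lift_apply_of]
  exact DFunLike.congr_fun h x

private theorem fwd_fwd {I : Type} {X Z X' Z' : I → Type}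
    (a : ∀ i, FreeGroup (X i) →* FreeGroup (X' i)) (b : ∀ i, FreeGroup (X' i) →* FreeGroup (X i))
    (hab : ∀ i x, b i (a i x) = x) (e : (Σ i, Z i) → (Σ i, Z' i)) (f : (Σ i, Z' i) → (Σ i, Z i))
    (hef : ∀ z, f (e z) = z) (x : FreeGroup ((Σ i, X i ⊕ Z i) ⊕ Empty)) :
    fwd b f (fwd a e x) = x := by
  have h : (fwd b f).comp (fwd a e) = MonoidHom.id _ := by
    refine FreeGroup.ext_hom _ _ fun y => ?_
    rcases y with ⟨i, x | z⟩ | y
    · rw [MonoidHom.comp_apply, MonoidHom.id_apply]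
      have h1 : fwd a e (FreeGroup.of (Sum.inl ⟨i, Sum.inl x⟩)) =
          ιi (W := fun i => X' i ⊕ Z' i) i (fl (a i (FreeGroup.of x))) := by
        simp only [fwd, FreeGroup.lift_apply_of]
      rw [h1, fwd_x, hab]
      simp only [FreeGroup.map.of]
    · rw [MonoidHom.comp_apply, MonoidHom.id_apply]
      have h1 : fwd a e (FreeGroup.of (Sum.inl ⟨i, Sum.inr z⟩)) =
          FreeGroup.of (Sum.inl ⟨(e ⟨i, z⟩).1, Sum.inr (e ⟨i, z⟩).2⟩) := by
        simp only [fwd, FreeGroup.lift_apply_of]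
      have h2 : ∀ w : (Σ i, Z' i), fwd b f (FreeGroup.of (Sum.inl ⟨w.1, Sum.inr w.2⟩)) =
          FreeGroup.of (Sum.inl ⟨(f w).1, Sum.inr (f w).2⟩) := by
        intro w
        simp only [fwd, FreeGroup.lift_apply_of]
      rw [h1, h2, hef]
    · exact y.elim
  exact DFunLike.congr_fun h x

theorem pf_TG : T_TG := by
  intro I I' X Z X' Z' τ α e
  let e' : (Σ i, Z i) ≃ (Σ i, Z' (τ i)) := e.trans (Equiv.sigmaCongrLeft τ).symm
  let θ0 : FreeGroup ((Σ i, X i ⊕ Z i) ⊕ Empty) ≃*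
      FreeGroup ((Σ i, X' (τ i) ⊕ Z' (τ i)) ⊕ Empty) :=
    { toFun := fwd (X' := fun i => X' (τ i)) (Z' := fun i => Z' (τ i))
        (fun i => (α i).toMonoidHom) e'
      invFun := fwd (X := fun i => X' (τ i)) (Z := fun i => Z' (τ i))
        (fun i => (α i).symm.toMonoidHom) e'.symm
      left_inv := fun x => fwd_fwd _ _ (fun i x => (α i).symm_apply_apply x) _ _
        (fun z => e'.symm_apply_apply z) x
      right_inv := fun x => fwd_fwd _ _ (fun i x => (α i).apply_symm_apply x) _ _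
        (fun z => e'.apply_symm_apply z) x
      map_mul' := fun x y => map_mul _ x y }
  let s : (Σ i, X' (τ i) ⊕ Z' (τ i)) ≃ (Σ i, X' i ⊕ Z' i) :=
    Equiv.sigmaCongrLeft (β := fun i => X' i ⊕ Z' i) τ
  let θ1 : FreeGroup ((Σ i, X' (τ i) ⊕ Z' (τ i)) ⊕ Empty) ≃*
      FreeGroup ((Σ i, X' i ⊕ Z' i) ⊕ Empty) :=
    FreeGroup.freeGroupCongr (Equiv.sumCongr s (Equiv.refl Empty))
  refine ⟨θ0.trans θ1, fun i x => ?_⟩
  have h1 : θ0 (ιi (W := fun i => X i ⊕ Z i) i (fl x)) =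
      ιi (W := fun i => X' (τ i) ⊕ Z' (τ i)) i (fl (α i x)) :=
    fwd_x (X' := fun i => X' (τ i)) (Z' := fun i => Z' (τ i)) _ _ i x
  have h2 : ∀ y : FreeGroup (X' (τ i) ⊕ Z' (τ i)),
      θ1 (ιi (W := fun i => X' (τ i) ⊕ Z' (τ i)) i y) =
        FreeGroup.map (fun z : X' (τ i) ⊕ Z' (τ i) =>
          (Sum.inl ⟨τ i, z⟩ : (Σ i, X' i ⊕ Z' i) ⊕ Empty)) y := by
    intro y
    have h3 : θ1.toMonoidHom.comp (ιi (W := fun i => X' (τ i) ⊕ Z' (τ i)) i) =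
        FreeGroup.map (fun z : X' (τ i) ⊕ Z' (τ i) =>
          (Sum.inl ⟨τ i, z⟩ : (Σ i, X' i ⊕ Z' i) ⊕ Empty)) := by
      refine FreeGroup.ext_hom _ _ fun z => ?_
      rw [MonoidHom.comp_apply, FreeGroup.map.of, FreeGroup.map.of]
      change FreeGroup.freeGroupCongr _ (FreeGroup.of _) = _
      rw [FreeGroup.freeGroupCongr_apply, FreeGroup.map.of]
      rfl
    exact DFunLike.congr_fun h3 y
  rw [MulEquiv.trans_apply]
  rw [show θ0 (FreeGroup.map (fun z : X i ⊕ Z i =>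
    (Sum.inl ⟨i, z⟩ : (Σ i, X i ⊕ Z i) ⊕ Empty)) (fl x)) = _ from h1, h2]

end Pool.Agent.H97.ORS
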